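import Pool.Agent.Helper19.HM.Goals

/-!
Packet HM-SG1 (MP_bb32d1_al, lower half of Haiman, module block): the sign part of a graded quotient
has dimension at most one.
-/

set_option autoImplicit false

namespace Pool.Agent.Helper87.HM

noncomputable section

open Pool.Agent.Helper19.SQ Pool.Agent.Helper19.HM MvPolynomial Module

/-- the sign of a permutation as a complex number. -/
def sgc {n : ℕ} (g : Equiv.Perm (Fin n)) : ℂ := ((Equiv.Perm.sign g : ℤ) : ℂ)

theorem sgc_mul {n : ℕ} (g h : Equiv.Perm (Fin n)) : sgc (g * h) = sgc g * sgc h := by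
  unfold sgc
  rw [Equiv.Perm.sign_mul]
  push_cast
  rfl

theorem sgc_self {n : ℕ} (g : Equiv.Perm (Fin n)) : sgc g * sgc g = 1 := by
  unfold sgc
  rw [← Int.cast_mul, ← Units.val_mul, Int.units_mul_self]
  simp

/-- the alternating average. -/
def Alt (n : ℕ) : MvPolynomial (Fin n) ℂ →ₗ[ℂ] MvPolynomial (Fin n) ℂ :=
  ((n.factorial : ℂ))⁻¹ • ∑ g : Equiv.Perm (Fin n), sgc g • (rename g).toLinearMap

theorem Alt_apply (n : ℕ) (f : MvPolynomial (Fin n) ℂ) :
    Alt n f = ((n.factorial : ℂ))⁻¹ • ∑ g : Equiv.Perm (Fin n), sgc g • rename g f := by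
  unfold Alt
  rw [LinearMap.smul_apply, LinearMap.sum_apply]
  rfl

theorem Alt_hom (n k : ℕ) (f : MvPolynomial (Fin n) ℂ) (hf : f.IsHomogeneous k) :
    (Alt n f).IsHomogeneous k := by
  rw [Alt_apply]
  refine (homogeneousSubmodule (Fin n) ℂ k).smul_mem _ ?_
  refine (homogeneousSubmodule (Fin n) ℂ k).sum_mem fun g _ => ?_
  refine (homogeneousSubmodule (Fin n) ℂ k).smul_mem _ ?_
  exact hf.rename_isHomogeneous

theorem Alt_alt (n : ℕ) (f : MvPolynomial (Fin n) ℂ) (h : Equiv.Perm (Fin n)) :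
    rename h (Alt n f) = sgc h • Alt n f := by
  rw [Alt_apply, map_smul, map_sum, smul_comm]
  congr 1
  rw [Finset.smul_sum]
  refine Fintype.sum_equiv (Equiv.mulLeft h) _ _ fun g => ?_
  rw [map_smul, rename_rename, Equiv.coe_mulLeft, sgc_mul, Equiv.Perm.coe_mul, smul_smul,
    ← mul_assoc, sgc_self, one_mul]

section

variable {n : ℕ} {V : Type} [AddCommGroup V] [Module ℂ V] (H : HGr n V)

theorem mem_sg (v : V) : v ∈ H.sg ↔ ∀ g : Equiv.Perm (Fin n), H.s g v = sgc g • v := Iff.rfl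

theorem pi_Alt (f : MvPolynomial (Fin n) ℂ) (hf : H.pi f ∈ H.sg) : H.pi (Alt n f) = H.pi f := by
  rw [Alt_apply, map_smul, map_sum]
  have h1 : ∀ g : Equiv.Perm (Fin n), H.pi (sgc g • rename g f) = H.pi f := by
    intro g
    rw [map_smul, H.pi_s, (mem_sg H _).1 hf g, smul_smul, sgc_self, one_smul]
  rw [Finset.sum_congr rfl fun g _ => h1 g, Finset.sum_const, Finset.card_univ, Fintype.card_perm,
    Fintype.card_fin, ← Nat.cast_smul_eq_nsmul ℂ, smul_smul, inv_mul_cancel₀, one_smul]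
  exact_mod_cast n.factorial_ne_zero

theorem pi_alt_mem (f : MvPolynomial (Fin n) ℂ)
    (hf : ∀ g : Equiv.Perm (Fin n), rename g f = sgc g • f) : H.pi f ∈ H.sg := by
  rw [mem_sg]
  intro g
  rw [← H.pi_s, hf g, map_smul]

/-- the pieces. -/
theorem decomp (w : V) (hw : w ∈ H.sg) : ∃ (K : ℕ) (f : ℕ → MvPolynomial (Fin n) ℂ),
    (∀ k, (f k).IsHomogeneous k) ∧ (∀ k (g : Equiv.Perm (Fin n)), rename g (f k) = sgc g • f k) ∧
    w = ∑ k ∈ Finset.range K, H.pi (f k) := by
  obtain ⟨f0, rfl⟩ := H.surj w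
  refine ⟨f0.totalDegree + 1, fun k => Alt n (homogeneousComponent k f0), ?_, ?_, ?_⟩
  · intro k
    exact Alt_hom n k _ (homogeneousComponent_isHomogeneous k f0)
  · intro k g
    exact Alt_alt n _ g
  · rw [← map_sum, ← map_sum, sum_homogeneousComponent, pi_Alt H f0 hw]

theorem comm_E (y : Fin n → Module.End ℂ V) (s : Equiv.Perm (Fin n) → Module.End ℂ V)
    (sy : ∀ g i, s g * y i = y (g i) * s g) (g : Equiv.Perm (Fin n)) :
    s g * (∑ i, y i * y i) = (∑ i, y i * y i) * s g := by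
  rw [Finset.mul_sum, Finset.sum_mul]
  refine Fintype.sum_equiv g _ _ fun i => ?_
  rw [← mul_assoc, sy, mul_assoc, sy, mul_assoc]

theorem stab (A : Module.End ℂ V) (hA : ∀ g, H.s g * A = A * H.s g) :
    ∀ v ∈ H.sg, A v ∈ H.sg := by
  intro v hv
  rw [mem_sg] at hv ⊢
  intro g
  have h := congrArg (fun B : Module.End ℂ V => B v) (hA g)
  simp only [Module.End.mul_apply] at h
  rw [h, hv g, map_smul]

end

theorem c_sg1 (hV : S_VDM) (hH : S_HEU) : S_SG1 := by
  intro n V _ _ _ H hn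
  obtain ⟨hv1, L, hL⟩ := hV n
  have heu := hH n V H hn
  set E : Module.End ℂ V := ∑ i, H.y i * H.y i with hE
  set F : Module.End ℂ V := ∑ i, H.x i * H.x i with hF
  have hEs : ∀ v ∈ H.sg, E v ∈ H.sg := stab H E (comm_E H.y H.s H.sy)
  have hFs : ∀ v ∈ H.sg, F v ∈ H.sg := stab H F (comm_E H.x H.s H.sx)
  set EW : H.sg →ₗ[ℂ] H.sg := E.restrict hEs with hEW
  set FW : H.sg →ₗ[ℂ] H.sg := F.restrict hFs with hFW
  set C : H.sg →ₗ[ℂ] H.sg := EW * FW - FW * EW with hC
  have hCap : ∀ w : H.sg, ((C w : H.sg) : V)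
      = (4 : ℂ) • H.eu (w : V) - (2 * (n : ℂ) * ((n : ℂ) - 1)) • (w : V) := by
    intro w
    have h := congrArg (fun B : Module.End ℂ V => B (w : V)) heu
    simp only [LinearMap.sub_apply, Module.End.mul_apply, LinearMap.smul_apply,
      Module.End.one_apply] at h
    rw [← h]
    rfl
  have htr : LinearMap.trace ℂ H.sg C = 0 := by
    rw [hC, map_sub, LinearMap.trace_mul_comm, sub_self]
  -- the spanning set of eigenvectors
  let S : Set H.sg := {w | ∃ k : ℕ, n * (n - 1) ≤ 2 * k ∧ H.eu (w : V) = (k : ℂ) • (w : V)}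
  have hspan : ⊤ ≤ Submodule.span ℂ S := by
    intro w _
    obtain ⟨K, f, hf1, hf2, hf3⟩ := decomp H (w : V) w.2
    have hw : w = ∑ k ∈ Finset.range K, (⟨H.pi (f k), pi_alt_mem H (f k) (hf2 k)⟩ : H.sg) := by
      apply Subtype.ext
      rw [hf3, Submodule.coe_sum]
    rw [hw]
    refine Submodule.sum_mem _ fun k _ => ?_
    by_cases hk : 2 * k < n * (n - 1)
    · have h0 : f k = 0 := hv1 k (f k) (hf1 k) (hf2 k) hk
      have : (⟨H.pi (f k), pi_alt_mem H (f k) (hf2 k)⟩ : H.sg) = 0 := by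
        apply Subtype.ext
        show H.pi (f k) = 0
        rw [h0, map_zero]
      rw [this]
      exact Submodule.zero_mem _
    · refine Submodule.subset_span ⟨k, not_lt.1 hk, ?_⟩
      exact H.eu_pi k (f k) (hf1 k)
  let b := Basis.ofSpan hspan
  have hbS : ∀ i, b i ∈ S := fun i => Basis.ofSpan_subset hspan (Set.mem_range_self i)
  have : Fintype ((linearIndepOn_empty ℂ (id : H.sg → H.sg)).extend (Set.empty_subset S)) :=
    FiniteDimensional.fintypeBasisIndex b
  classical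
  choose kk hk1 hk2 using hbS
  have hCb : ∀ i, C (b i) = ((4 * (kk i : ℂ) - 2 * (n : ℂ) * ((n : ℂ) - 1))) • b i := by
    intro i
    apply Subtype.ext
    rw [hCap, hk2 i, smul_smul, ← sub_smul]
    rfl
  have htr2 : ∑ i, ((4 * (kk i : ℂ) - 2 * (n : ℂ) * ((n : ℂ) - 1))) = 0 := by
    rw [LinearMap.trace_eq_matrix_trace ℂ b C, Matrix.trace] at htr
    rw [← htr]
    refine Finset.sum_congr rfl fun i _ => ?_
    rw [Matrix.diag_apply, LinearMap.toMatrix_apply, hCb i, map_smul, Finsupp.smul_apply,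
      Basis.repr_self, Finsupp.single_eq_same, smul_eq_mul, mul_one]
  have hn1 : ((n : ℂ) - 1) = ((n - 1 : ℕ) : ℂ) := by
    rw [Nat.cast_sub (by omega), Nat.cast_one]
  have hkk : ∀ i, 2 * kk i = n * (n - 1) := by
    have h2 : ∑ i, (2 * kk i - n * (n - 1)) = 0 := by
      have h3 : ((∑ i, (2 * kk i - n * (n - 1)) : ℕ) : ℂ) = 0 := by
        rw [Nat.cast_sum]
        have h4 : ∀ i, ((2 * kk i - n * (n - 1) : ℕ) : ℂ)
            = (1 / 2 : ℂ) * (4 * (kk i : ℂ) - 2 * (n : ℂ) * ((n : ℂ) - 1)) := by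
          intro i
          rw [Nat.cast_sub (hk1 i), hn1]
          push_cast
          ring
        rw [Finset.sum_congr rfl fun i _ => h4 i, ← Finset.mul_sum, htr2, mul_zero]
      exact_mod_cast h3
    intro i
    have h5 := (Finset.sum_eq_zero_iff.1 h2) i (Finset.mem_univ i)
    have := hk1 i
    omega
  have hC0 : C = 0 := by
    refine b.ext fun i => ?_
    rw [hCb i, LinearMap.zero_apply]
    have h6 : (4 * (kk i : ℂ) - 2 * (n : ℂ) * ((n : ℂ) - 1)) = 0 := by
      rw [hn1]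
      have h7 : ((2 * kk i : ℕ) : ℂ) = ((n * (n - 1) : ℕ) : ℂ) := by rw [hkk i]
      push_cast at h7
      linear_combination 2 * h7
    rw [h6, zero_smul]
  -- every vector is the image of an alternating form of the middle degree
  have hmid : ∀ w ∈ H.sg, ∃ (k : ℕ) (f : MvPolynomial (Fin n) ℂ), 2 * k = n * (n - 1) ∧
      f.IsHomogeneous k ∧ (∀ g : Equiv.Perm (Fin n), rename g f = sgc g • f) ∧ w = H.pi f := by
    intro w hw
    obtain ⟨K, f, hf1, hf2, hf3⟩ := decomp H w hw
    have hz : ∀ k, 2 * k ≠ n * (n - 1) → H.pi (f k) = 0 := by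
      intro k hk
      have hmem := pi_alt_mem H (f k) (hf2 k)
      have h8 := hCap ⟨H.pi (f k), hmem⟩
      rw [hC0, LinearMap.zero_apply] at h8
      have h9 : (0 : V) = (4 : ℂ) • H.eu (H.pi (f k))
          - (2 * (n : ℂ) * ((n : ℂ) - 1)) • H.pi (f k) := h8
      rw [H.eu_pi k (f k) (hf1 k), smul_smul, ← sub_smul] at h9
      rcases smul_eq_zero.1 h9.symm with h10 | h10
      · exfalso
        apply hk
        rw [hn1] at h10
        have h11 : ((2 * k : ℕ) : ℂ) = ((n * (n - 1) : ℕ) : ℂ) := by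
          push_cast
          linear_combination h10 / 2
        exact_mod_cast h11
      · exact h10
    have heven : ∃ k0, 2 * k0 = n * (n - 1) := by
      obtain ⟨m, hm⟩ := Nat.even_mul_pred_self n
      exact ⟨m, by omega⟩
    obtain ⟨k0, hk0⟩ := heven
    by_cases hkK : k0 < K
    · refine ⟨k0, f k0, hk0, hf1 k0, hf2 k0, ?_⟩
      rw [hf3]
      refine Finset.sum_eq_single_of_mem k0 (Finset.mem_range.2 hkK) fun k _ hk => hz k ?_
      intro h
      apply hk
      omega
    · refine ⟨k0, 0, hk0, isHomogeneous_zero _ _ _, ?_, ?_⟩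
      · intro g
        rw [map_zero, smul_zero]
      · rw [hf3, map_zero]
        refine Finset.sum_eq_zero fun k hk => hz k ?_
        intro h
        have := Finset.mem_range.1 hk
        omega
  by_cases htriv : ∀ w ∈ H.sg, w = 0
  · refine finrank_le_one (0 : H.sg) fun w => ⟨0, ?_⟩
    rw [smul_zero]
    exact Subtype.ext (htriv w w.2).symm
  · push Not at htriv
    obtain ⟨w1, hw1, hw1n⟩ := htriv
    obtain ⟨k1, f1, hk1', hf1, hf1a, rfl⟩ := hmid w1 hw1
    have hL1 : L f1 ≠ 0 := by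
      intro h
      apply hw1n
      rw [hL k1 f1 hf1 hf1a hk1' h, map_zero]
    refine finrank_le_one (⟨H.pi f1, hw1⟩ : H.sg) fun w => ?_
    obtain ⟨k2, f2, hk2', hf2, hf2a, hw2⟩ := hmid w w.2
    have hkk2 : k2 = k1 := by omega
    subst hkk2
    refine ⟨L f2 / L f1, ?_⟩
    have h12 : f2 - (L f2 / L f1) • f1 = 0 := by
      refine hL k2 _ ?_ ?_ hk1' ?_
      · exact (homogeneousSubmodule (Fin n) ℂ k2).sub_mem hf2
          ((homogeneousSubmodule (Fin n) ℂ k2).smul_mem _ hf1)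
      · intro g
        have e1 : rename g (f2 - (L f2 / L f1) • f1) = sgc g • (f2 - (L f2 / L f1) • f1) := by
          rw [map_sub, map_smul, hf2a g, hf1a g, smul_sub, smul_comm]
        exact e1
      · rw [map_sub, map_smul, smul_eq_mul, div_mul_cancel₀ _ hL1, sub_self]
    apply Subtype.ext
    have h13 := congrArg H.pi (sub_eq_zero.1 h12)
    rw [map_smul] at h13
    rw [Submodule.coe_smul, hw2, h13]

end

end Pool.Agent.Helper87.HM
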